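import Pool.Agent.helper64.QF.Spec

/-!
# Project pq: (MP_b9b9c0_an), module PWC: the second coefficient of the glued map
-/

set_option autoImplicit false

namespace Pool.Agent.helper64.QF

open Metric MeasureTheory Set Filter Topology
open Pool.Agent.helper37.PR

theorem PWC_P2_lin {n : ℕ} (A : E n →L[ℂ] E n) (x : E n) : P2 (fun z => A z) x = 0 := by
  unfold P2
  rw [iteratedFDeriv_two_apply]
  have h1 : fderiv ℂ (fun z : E n => A z) = fun _ => A := by
    funext z
    exact A.fderiv
  rw [h1]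
  simp

theorem PWC (hCNS : CNS_stmt) (hPF2 : PF2_stmt) : PWC_stmt := by
  intro n A m κ C hC N τ hτ H X hX
  obtain ⟨hH, v, f, hv, hf, hlim⟩ := hCNS n A m κ C hC N τ hτ H X hX
  refine ⟨f, hf, fun U V => ?_⟩
  obtain ⟨hint, heq⟩ := hPF2 n A m κ C hC (hglue A N τ H) v f hH hv hf.1 hf.2.1 hf.2.2.1 hlim U V
  rw [heq]
  refine congrArg Neg.neg ?_
  set F : ℝ → ℂ := fun t =>
    inner ℂ (dual A V t) (P2 (fun z => hglue A N τ H z t) (fw A U t)) with hF
  have hN0 : (0 : ℝ) ≤ N * τ := by positivity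
  have hI1 : IntegrableOn F (Ioi ((N : ℝ) * τ)) := hint.mono_set (Ioi_subset_Ioi hN0)
  have hsplit : ∫ t in Ioi (0 : ℝ), F t =
      (∫ t in (0 : ℝ)..(N * τ), F t) + ∫ t in Ioi ((N : ℝ) * τ), F t :=
    (intervalIntegral.integral_interval_add_Ioi hint hI1).symm
  have htail : ∫ t in Ioi ((N : ℝ) * τ), F t = 0 := by
    rw [setIntegral_congr_fun (g := fun _ => (0 : ℂ)) measurableSet_Ioi]
    · simp
    · intro t ht
      have h1 : (fun z : E n => hglue A N τ H z t) = fun z => A z := by
        funext z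
        unfold hglue
        rw [if_neg (not_lt.2 (mem_Ioi.1 ht).le)]
      simp only [hF, h1, PWC_P2_lin, inner_zero_right]
  have hii : ∀ a b : ℝ, 0 ≤ a → 0 ≤ b → IntervalIntegrable F volume a b := by
    intro a b ha hb
    rw [intervalIntegrable_iff]
    refine hint.mono_set ?_
    intro t ht
    rw [uIoc, mem_Ioc] at ht
    exact lt_of_le_of_lt (le_min ha hb) ht.1
  have hsum : ∑ i ∈ Finset.range N, ∫ t in (i * τ)..((i + 1 : ℕ) * τ), F t =
      ∫ t in (0 : ℝ)..(N * τ), F t := by
    have := intervalIntegral.sum_integral_adjacent_intervals (f := F) (μ := volume)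
      (a := fun k : ℕ => (k : ℝ) * τ) (n := N)
      (fun k _ => hii _ _ (by positivity) (by positivity))
    simpa using this
  rw [hsplit, htail, add_zero, ← hsum]
  refine Finset.sum_congr rfl fun i hi => ?_
  have hiN : i < N := Finset.mem_range.1 hi
  have hle : (i : ℝ) * τ ≤ ((i + 1 : ℕ) : ℝ) * τ := by
    push_cast
    nlinarith
  push_cast
  push_cast at hle
  rw [intervalIntegral.integral_of_le hle, intervalIntegral.integral_of_le hle,
    integral_Ioc_eq_integral_Ioo, integral_Ioc_eq_integral_Ioo]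
  refine setIntegral_congr_fun measurableSet_Ioo fun t ht => ?_
  obtain ⟨ht1, ht2⟩ := ht
  have h1 : t < N * τ := by
    refine lt_of_lt_of_le ht2 (mul_le_mul_of_nonneg_right ?_ hτ.le)
    exact_mod_cast hiN
  have h2 : ⌊t / τ⌋₊ = i := by
    rw [Nat.floor_eq_iff (by
      have : (0 : ℝ) ≤ i * τ := by positivity
      exact div_nonneg (this.trans ht1.le) hτ.le)]
    constructor
    · rw [le_div_iff₀ hτ]; exact ht1.le
    · rw [div_lt_iff₀ hτ]; exact ht2
  have h3 : (fun z : E n => hglue A N τ H z t) = H i := by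
    funext z
    unfold hglue
    rw [if_pos h1, h2]
  simp only [hF, h3]

end Pool.Agent.helper64.QF
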